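import Pool.Agent.Helper50.D71.Geo

/-!
# MP_d71e86_ag, block N : non-rationality

An integral scheme over an algebraically closed field of characteristic zero carrying a
nonconstant solution of `y ^ 3 = s ^ 2 + 1` on a nonempty open set is not rational.
Algebra: restrict to lines and use the Mason-Stothers theorem (`Polynomial.flt_catalan`).
-/

open Polynomial AlgebraicGeometry CategoryTheory

namespace Helper50.D71.NonRat

/-- polynomials: `A ^ 3 = B ^ 2 + c ^ 6` with `A`, `c` coprime has only constant solutions. -/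
lemma poly_const {k : Type*} [Field k] [CharZero k] {A B c : k[X]}
    (hA : A ≠ 0) (hB : B ≠ 0) (hc : c ≠ 0) (hco : IsCoprime A c) (h : A ^ 3 = B ^ 2 + c ^ 6) :
    B.natDegree = 0 ∧ c.natDegree = 0 := by
  have hcB : IsCoprime B c := by
    have h1 : IsCoprime (A ^ 3) c := hco.pow_left
    rw [h] at h1
    have h2 : IsCoprime (B ^ 2 + c * c ^ 5) c := by
      convert h1 using 2
      ring
    have h3 : IsCoprime (B ^ 2) c := IsCoprime.of_add_mul_left_left h2
    exact (IsCoprime.pow_left_iff (by norm_num)).mp h3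
  have := Polynomial.flt_catalan (k := k) (p := 2) (q := 6) (r := 3) (by norm_num) (by norm_num)
    (by norm_num) (by norm_num) (by exact_mod_cast (by norm_num : (2:ℕ) ≠ 0))
    (by exact_mod_cast (by norm_num : (6:ℕ) ≠ 0))
    (by exact_mod_cast (by norm_num : (3:ℕ) ≠ 0)) hB hc hA hcB (u := 1) (v := 1) (w := -1)
    one_ne_zero one_ne_zero (by norm_num) (by
      simp only [map_one, map_neg, one_mul]
      rw [h]; ring)
  exact ⟨this.1, this.2.1⟩

/-- the curve `y³ = s² + 1` has no nonconstant points over `k(t)`. -/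
lemma ratFunc_const {k : Type*} [Field k] [IsAlgClosed k] [CharZero k] {K : Type*} [Field K]
    [Algebra k[X] K] [IsFractionRing k[X] K] {s y : K} (h : y ^ 3 = s ^ 2 + 1) :
    ∃ r : k, s = algebraMap k[X] K (C r) := by
  classical
  set φ := algebraMap k[X] K with hφ
  have hinj : Function.Injective φ := IsFractionRing.injective k[X] K
  by_cases hs : s = 0
  · exact ⟨0, by simp [hs]⟩
  by_cases hy : y = 0
  · obtain ⟨i, hi⟩ := IsAlgClosed.exists_pow_nat_eq (-1 : k) (n := 2) (by norm_num)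
    have h1 : (s - φ (C i)) * (s + φ (C i)) = 0 := by
      have : φ (C i) ^ 2 = -1 := by
        rw [← map_pow, ← C_pow, hi]; simp
      rw [hy] at h
      linear_combination -h - this
    rcases mul_eq_zero.mp h1 with h2 | h2
    · exact ⟨i, by linear_combination h2⟩
    · exact ⟨-i, by rw [C_neg, map_neg]; linear_combination h2⟩
  -- reduced fraction for y
  obtain ⟨a, d, had, hyd⟩ := IsFractionRing.exists_reduced_fraction (A := k[X]) y
  have hd0 : (d : k[X]) ≠ 0 := nonZeroDivisors.ne_zero d.2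
  have hφd : φ (d : k[X]) ≠ 0 := fun h0 => hd0 (hinj (by rw [h0, map_zero]))
  have hco : IsCoprime a (d : k[X]) := had.isCoprime
  have hy' : y * φ d = φ a := by
    rw [← hyd]
    exact IsLocalization.mk'_spec K a d
  -- w = s d²
  have hw : (s * φ d ^ 2) ^ 2 = φ ((a ^ 3 - (d : k[X]) ^ 3) * d) := by
    rw [map_mul, map_sub, map_pow, map_pow, ← hy']
    have : s ^ 2 = y ^ 3 - 1 := by rw [h]; ring
    calc (s * φ d ^ 2) ^ 2 = s ^ 2 * φ d ^ 4 := by ring
      _ = _ := by rw [this]; ring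
  obtain ⟨w, hw'⟩ : ∃ w : k[X], φ w = s * φ d ^ 2 := by
    have hint : IsIntegral k[X] (s * φ d ^ 2) := by
      refine IsIntegral.of_pow (n := 2) (by norm_num) ?_
      rw [hw]
      exact isIntegral_algebraMap
    exact IsIntegrallyClosed.isIntegral_iff.mp hint
  have hww : w ^ 2 = (a ^ 3 - (d : k[X]) ^ 3) * d := by
    apply hinj
    rw [map_pow, hw', hw]
  have hcop : IsCoprime (d : k[X]) (a ^ 3 - (d : k[X]) ^ 3) := by
    have h1 : IsCoprime (d : k[X]) (a ^ 3) := hco.symm.pow_right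
    have h2 := h1.add_mul_left_right (-(d : k[X]) ^ 2)
    have h3 : a ^ 3 - (d : k[X]) ^ 3 = a ^ 3 + d * (-(d : k[X]) ^ 2) := by ring
    rw [h3]
    exact h2
  obtain ⟨c₀, hc₀⟩ := exists_associated_pow_of_mul_eq_pow' hcop (k := 2) (c := w) (by
    rw [hww]; ring)
  obtain ⟨u, hu⟩ := hc₀
  obtain ⟨u₀, hu₀, hu₁⟩ := Polynomial.isUnit_iff.mp u.isUnit
  obtain ⟨v, hv⟩ := IsAlgClosed.exists_pow_nat_eq u₀ (n := 2) (by norm_num)
  set c : k[X] := C v * c₀ with hc
  have hdc : (d : k[X]) = c ^ 2 := by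
    rw [hc, mul_pow, ← C_pow, hv, hu₁, mul_comm]
    exact hu.symm
  have hc0 : c ≠ 0 := by
    intro h0
    apply hd0
    rw [hdc, h0]; ring
  -- w = c B
  obtain ⟨B, hB⟩ : c ∣ w := by
    have : c ^ 2 ∣ w ^ 2 := by
      rw [hww, hdc]
      exact Dvd.intro_left _ rfl
    exact (IsIntegrallyClosed.pow_dvd_pow_iff (by norm_num)).mp this
  have hB2 : a ^ 3 = B ^ 2 + c ^ 6 := by
    have h1 : c ^ 2 * (a ^ 3 - (B ^ 2 + c ^ 6)) = 0 := by
      have := hww
      rw [hB, hdc] at this
      linear_combination -this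
    rcases mul_eq_zero.mp h1 with h2 | h2
    · exact absurd h2 (pow_ne_zero _ hc0)
    · exact sub_eq_zero.mp h2
  have ha0 : a ≠ 0 := by
    rintro rfl
    rw [map_zero] at hy'
    exact hy ((mul_eq_zero.mp hy').resolve_right hφd)
  have hφc : φ c ≠ 0 := fun h0 => hc0 (hinj (by rw [h0, map_zero]))
  have hsB : s * φ c ^ 3 = φ B := by
    have h1 : φ c * φ B = s * φ c ^ 4 := by
      rw [← map_mul, ← hB, hw', hdc, map_pow]; ring
    have h2 : φ c * (φ B - s * φ c ^ 3) = 0 := by linear_combination h1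
    rcases mul_eq_zero.mp h2 with h3 | h3
    · exact absurd h3 hφc
    · exact (sub_eq_zero.mp h3).symm
  have hB0 : B ≠ 0 := by
    rintro rfl
    rw [map_zero] at hsB
    exact hs ((mul_eq_zero.mp hsB).resolve_right (pow_ne_zero _ hφc))
  have hcoac : IsCoprime a c := by
    rw [hdc] at hco
    exact (IsCoprime.pow_right_iff (by norm_num)).mp hco
  obtain ⟨hBd, hcd⟩ := poly_const ha0 hB0 hc0 hcoac hB2
  obtain ⟨b₁, hb₁⟩ := natDegree_eq_zero.mp hBd
  obtain ⟨c₁, hc₁⟩ := natDegree_eq_zero.mp hcd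
  have hc₁0 : c₁ ≠ 0 := by
    rintro rfl
    exact hc0 (by rw [← hc₁]; simp)
  refine ⟨b₁ / c₁ ^ 3, ?_⟩
  have h5 : φ (C (b₁ / c₁ ^ 3)) * φ c ^ 3 = φ B := by
    rw [← hb₁, ← hc₁, ← map_pow, ← map_mul, ← C_pow, ← C_mul, div_mul_cancel₀ _ (pow_ne_zero _ hc₁0)]
  exact mul_right_cancel₀ (pow_ne_zero 3 hφc) (hsB.trans h5.symm)

lemma away_const {k : Type*} [Field k] [IsAlgClosed k] [CharZero k] {n : Type*}
    (g : MvPolynomial n k) (hg : g ≠ 0) {L : Type*} [CommRing L] [Algebra (MvPolynomial n k) L]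
    [IsLocalization.Away g L] {s y : L} (h : y ^ 3 = s ^ 2 + 1) :
    ∃ r : k, s = algebraMap (MvPolynomial n k) L (MvPolynomial.C r) := by
  classical
  have : Infinite k := IsAlgClosed.instInfinite
  obtain ⟨m, P, hP⟩ := IsLocalization.Away.surj g s
  have hgu : IsUnit (algebraMap (MvPolynomial n k) L g) := IsLocalization.Away.algebraMap_isUnit g
  -- values along a line
  have key : ∀ a b : n → k, MvPolynomial.eval a g ≠ 0 →
      ∃ r : k, r * MvPolynomial.eval a g ^ m = MvPolynomial.eval a P ∧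
        r * MvPolynomial.eval b g ^ m = MvPolynomial.eval b P := by
    intro a b ha
    let ψ : MvPolynomial n k →+* k[X] :=
      MvPolynomial.eval₂Hom Polynomial.C (fun i => C (a i) + X * C (b i - a i))
    have e0 : (Polynomial.evalRingHom 0).comp ψ = MvPolynomial.eval a := by
      apply MvPolynomial.ringHom_ext
      · intro r; simp [ψ]
      · intro i; simp [ψ]
    have e1 : (Polynomial.evalRingHom 1).comp ψ = MvPolynomial.eval b := by
      apply MvPolynomial.ringHom_ext
      · intro r; simp [ψ]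
      · intro i; simp [ψ]
    have hψg : ψ g ≠ 0 := by
      intro h0
      apply ha
      rw [← e0]
      simp [h0]
    let K := FractionRing k[X]
    let Ψ₀ : MvPolynomial n k →+* K := (algebraMap k[X] K).comp ψ
    have hu : IsUnit (Ψ₀ g) := by
      apply IsUnit.mk0
      intro h0
      exact hψg (IsFractionRing.injective k[X] K (by rw [map_zero]; exact h0))
    let Ψ : L →+* K := IsLocalization.Away.lift g hu
    have hΨ : ∀ x, Ψ (algebraMap _ L x) = Ψ₀ x := fun x => IsLocalization.Away.lift_eq g hu x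
    obtain ⟨r, hr⟩ := ratFunc_const (k := k) (K := K) (s := Ψ s) (y := Ψ y) (by
      rw [← map_pow, h]; simp)
    have h1 : C r * ψ g ^ m = ψ P := by
      apply IsFractionRing.injective k[X] K
      rw [map_mul, map_pow, ← hr]
      have := congrArg Ψ hP
      rw [map_mul, map_pow, hΨ, hΨ] at this
      simpa [Ψ₀] using this
    refine ⟨r, ?_, ?_⟩
    · have := congrArg (Polynomial.evalRingHom 0) h1
      rw [← e0]
      simpa using this
    · have := congrArg (Polynomial.evalRingHom 1) h1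
      rw [← e1]
      simpa using this
  obtain ⟨a₀, ha₀⟩ : ∃ a : n → k, MvPolynomial.eval a g ≠ 0 := by
    by_contra hcon
    push Not at hcon
    exact hg (MvPolynomial.funext (fun x => by rw [hcon x, map_zero]))
  obtain ⟨r₀, hr₀, -⟩ := key a₀ a₀ ha₀
  have hPr : P = MvPolynomial.C r₀ * g ^ m := by
    apply MvPolynomial.funext
    intro b
    obtain ⟨r, hr1, hr2⟩ := key a₀ b ha₀
    have : r = r₀ := mul_right_cancel₀ (pow_ne_zero m ha₀) (hr1.trans hr₀.symm)
    rw [← hr2, this]; simp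
  refine ⟨r₀, ?_⟩
  rw [hPr, map_mul, map_pow] at hP
  exact (hgu.pow m).mul_right_cancel hP

end Helper50.D71.NonRat

namespace Helper50.D71

universe u

variable {k : Type u} [Field k]

/-- the constant function `r` on an open subset of a `k`-scheme. -/
noncomputable def const {C : Scheme.{u}} (f : C ⟶ Spec (.of k)) (U : C.Opens) (r : k) : Γ(C, U) :=
  (f.appLE ⊤ U le_top).hom ((Scheme.ΓSpecIso (.of k)).inv.hom r)

/-- Core: an open immersion `Spec k[n]_g ⟶ C` over `k` landing in `U` prevents nonconstant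
solutions. -/
lemma eq_const_of_openImmersion [IsAlgClosed k] [CharZero k] {C : Scheme.{u}} [IsIntegral C]
    (f : C ⟶ Spec (.of k)) (U : C.Opens) (s y : Γ(C, U)) (h : y ^ 3 = s ^ 2 + 1)
    {n : Type u} (g : MvPolynomial n k) (hg : g ≠ 0)
    (j : Spec (.of (Localization.Away g)) ⟶ C) [IsOpenImmersion j]
    (hj : j ≫ f = Spec.map (CommRingCat.ofHom (algebraMap k (Localization.Away g))))
    (hU : ⊤ ≤ j ⁻¹ᵁ U) (hne : Nonempty (Spec (.of (Localization.Away g)))) :
    ∃ r : k, s = const f U r := by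
  let θ : Γ(C, U) →+* Localization.Away g :=
    (Scheme.ΓSpecIso (.of (Localization.Away g))).hom.hom.comp (j.appLE U ⊤ hU).hom
  have hθinj : Function.Injective θ := by
    have h1 : Function.Injective (j.appLE U ⊤ hU).hom := by
      have hle : j ''ᵁ ⊤ ≤ U := by
        rintro x ⟨z, -, rfl⟩
        exact hU (Set.mem_univ z)
      have h2 : j.appLE U ⊤ hU = C.presheaf.map (homOfLE hle).op ≫ (j.appIso ⊤).hom := by
        rw [Scheme.Hom.appIso_hom', Scheme.Hom.map_appLE]
      rw [h2]
      have : Nonempty (j ''ᵁ ⊤ : C.Opens) := by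
        obtain ⟨z⟩ := hne
        exact ⟨⟨j z, ⟨z, trivial, rfl⟩⟩⟩
      have h3 := map_injective_of_isIntegral C (homOfLE hle)
      have h4 : Function.Injective (j.appIso ⊤).hom.hom :=
        (ConcreteCategory.bijective_of_isIso (j.appIso ⊤).hom).1
      rw [CommRingCat.hom_comp, RingHom.coe_comp]
      exact h4.comp h3
    have h5 : Function.Injective (Scheme.ΓSpecIso (.of (Localization.Away g))).hom.hom :=
      (ConcreteCategory.bijective_of_isIso (Scheme.ΓSpecIso (.of (Localization.Away g))).hom).1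
    exact h5.comp h1
  obtain ⟨r, hr⟩ := NonRat.away_const g hg (L := Localization.Away g) (s := θ s) (y := θ y) (by
    rw [← map_pow, h]; simp)
  refine ⟨r, hθinj ?_⟩
  have h6 : f.appLE ⊤ U le_top ≫ j.appLE U ⊤ hU = (j ≫ f).appTop := by
    rw [Scheme.Hom.appLE_comp_appLE]
    exact Scheme.Hom.appLE_eq_app _
  have h7 : (Scheme.ΓSpecIso (.of k)).inv ≫ (j ≫ f).appTop ≫
      (Scheme.ΓSpecIso (.of (Localization.Away g))).hom =
      CommRingCat.ofHom (algebraMap k (Localization.Away g)) := by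
    rw [hj, Scheme.ΓSpecIso_naturality, Iso.inv_hom_id_assoc]
  have h8 : θ (const f U r) = algebraMap k (Localization.Away g) r := by
    have := congrArg (fun φ => φ.hom r) h7
    rw [← h6] at this
    exact this
  rw [hr, h8, IsScalarTower.algebraMap_apply k (MvPolynomial n k) (Localization.Away g)]
  rfl

theorem not_isRationalOver [IsAlgClosed k] [CharZero k] {C : Scheme.{u}} [IsIntegral C]
    (f : C ⟶ Spec (.of k)) (U : C.Opens) (hU : (U : Set C).Nonempty) (s y : Γ(C, U))
    (h : y ^ 3 = s ^ 2 + 1) (hs : ∀ r : k, s ≠ const f U r) :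
    ¬ Scheme.IsRationalOver f := by
  intro hrat
  obtain ⟨n, φ, hφ⟩ := Scheme.IsRationalOver.exists_birationalOver_affineSpace f
  let e := AffineSpace.SpecIso n (.of k)
  let q : φ.target.toScheme ⟶ Spec (.of (MvPolynomial n k)) := φ.target.ι ≫ e.hom
  let p : φ.target.toScheme ⟶ C := φ.iso.inv ≫ φ.source.ι
  -- a nonempty basic open
  obtain ⟨x₀, hx₀U, hx₀V⟩ := φ.dense_source.inter_open_nonempty U U.2 hU
  let z₀ : φ.target.toScheme := φ.iso.hom ⟨x₀, hx₀V⟩
  have hz₀ : p z₀ = x₀ := by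
    change φ.source.ι (φ.iso.inv (φ.iso.hom ⟨x₀, hx₀V⟩)) = x₀
    rw [Scheme.hom_inv_apply]
    rfl
  let O : (Spec (.of (MvPolynomial n k))).Opens := q ''ᵁ (p ⁻¹ᵁ U)
  have hmem : q z₀ ∈ O := ⟨z₀, by
    change p z₀ ∈ U
    rw [hz₀]
    exact hx₀U, rfl⟩
  obtain ⟨_, ⟨g, rfl⟩, hg1, hg2⟩ :=
    PrimeSpectrum.isTopologicalBasis_basic_opens.exists_subset_of_mem_open hmem O.2
  have hg : g ≠ 0 := by
    rintro rfl
    exact (PrimeSpectrum.mem_basicOpen _ _).mp hg1 (Ideal.zero_mem _)
  let j₀ : Spec (.of (Localization.Away g)) ⟶ Spec (.of (MvPolynomial n k)) :=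
    Spec.map (CommRingCat.ofHom (algebraMap (MvPolynomial n k) (Localization.Away g)))
  have hj₀ : IsOpenImmersion j₀ := IsOpenImmersion.of_isLocalization g
  have hrange : Set.range j₀ = ((PrimeSpectrum.basicOpen g :
      TopologicalSpace.Opens (PrimeSpectrum (MvPolynomial n k))) :
      Set (PrimeSpectrum (MvPolynomial n k))) :=
    PrimeSpectrum.localization_away_comap_range (Localization.Away g) g
  have hsub : Set.range j₀ ⊆ Set.range q := by
    rw [hrange]
    refine hg2.trans ?_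
    rintro _ ⟨z, -, rfl⟩
    exact ⟨z, rfl⟩
  let l := IsOpenImmersion.lift q j₀ hsub
  have hl : l ≫ q = j₀ := IsOpenImmersion.lift_fac q j₀ hsub
  have hlo : IsOpenImmersion l := by
    have : IsOpenImmersion (l ≫ q) := by rw [hl]; exact hj₀
    exact IsOpenImmersion.of_comp l q
  have hover : (l ≫ p) ≫ f =
      Spec.map (CommRingCat.ofHom (algebraMap k (Localization.Away g))) := by
    have h1 : p ≫ f = q ≫ e.inv ≫ (𝔸(n; Spec (.of k)) ↘ Spec (.of k)) := by
      have h2 : φ.iso.inv ≫ φ.iso.hom ≫ φ.target.ι ≫ (𝔸(n; Spec (.of k)) ↘ Spec (.of k)) =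
        φ.iso.inv ≫ φ.source.ι ≫ f := by rw [hφ]
      simp only [Iso.inv_hom_id_assoc] at h2
      simp only [p, q, Category.assoc, Iso.hom_inv_id_assoc]
      exact h2.symm
    rw [Category.assoc, h1, reassoc_of% hl, AffineSpace.SpecIso_inv_over, ← Spec.map_comp]
    rfl
  have hUj : ⊤ ≤ (l ≫ p) ⁻¹ᵁ U := by
    intro x _
    have h0 : j₀ x ∈ Set.range j₀ := ⟨x, rfl⟩
    rw [hrange] at h0
    have h1 : j₀ x ∈ (O : Set _) := hg2 h0
    obtain ⟨z, hz, hz'⟩ := h1
    have h2 : q (l x) = j₀ x := by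
      rw [← hl]; rfl
    have h3 : l x = z := q.isOpenEmbedding.injective (h2.trans hz'.symm)
    change p (l x) ∈ U
    rw [h3]
    exact hz
  have hne : Nonempty (Spec (.of (Localization.Away g))) := by
    have : q z₀ ∈ Set.range j₀ := by rw [hrange]; exact hg1
    exact ⟨this.choose⟩
  obtain ⟨r, hr⟩ := eq_const_of_openImmersion f U s y h g hg (l ≫ p) hover hUj hne
  exact hs r hr

end Helper50.D71
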